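import Pool.Agent.W221.NS.Stm

set_option autoImplicit false

open MeasureTheory Set Metric Filter
open scoped ContDiff Topology

namespace W414.MD

open H459R3.NS W221.NS

theorem rr_pos (m : ℕ) : 0 < rr m := by unfold rr; positivity

theorem rr_sq (m : ℕ) : rr m ^ 2 = 1 / 4 ^ m := by
  unfold rr
  rw [← pow_mul, mul_comm m 2, pow_mul, show ((1 : ℝ) / 2) ^ 2 = 1 / 4 by norm_num, one_div_pow]

theorem enst_nonneg (v : V → V) : 0 ≤ enstrophy v := by
  unfold enstrophy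
  exact Finset.sum_nonneg fun i _ => Finset.sum_nonneg fun j _ =>
    setIntegral_nonneg_of_ae_restrict (Eventually.of_forall fun x => sq_nonneg _)

theorem gsq_nonneg (v : V → V) (x : V) : 0 ≤ gsq v x :=
  Finset.sum_nonneg fun i _ => Finset.sum_nonneg fun j _ => sq_nonneg _

theorem avg_nonneg (u : V → V) (x : V) (ρ : ℝ) (h : 0 ≤ ρ) : 0 ≤ avg u x ρ := by
  unfold avg
  apply div_nonneg
  · exact setIntegral_nonneg_of_ae_restrict (Eventually.of_forall fun y => gsq_nonneg u y)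
  · positivity

theorem FF_nonneg (m : ℕ) (u : V → V) (x : V) : 0 ≤ FF m u x := by
  unfold FF
  apply div_nonneg _ (by positivity)
  apply add_nonneg _ (enst_nonneg u)
  exact Finset.sum_nonneg fun k _ => avg_nonneg u x _ (by positivity)

theorem flow_of (h7 : S_FLOWC) (h8 : S_FLOWP) {T : ℝ} {U : ℝ → V → V} (hU : Good T U) {α β : ℝ}
    (hα : 0 < α) (hαβ : α < β) (hβ : β < T) {X : ℝ → V → V} (hX : Flow0 U α β X) :
    Flow U α β X := by
  refine ⟨hX, ?_⟩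
  intro t ht f hf hper
  have hc : Continuous (X t) := by
    rw [← continuousOn_univ]
    exact hX.cont.comp (f := fun x : V => (t, x)) (by fun_prop) (fun x _ => ⟨ht, mem_univ _⟩)
  exact h8 (X t) hc (fun x i => hX.per t ht x i)
    (fun g hg hgc hg0 => h7 T U hU α β hα hαβ hβ X hX t ht g hg hgc hg0) f hf hper

theorem speed {U : ℝ → V → V} {α β M : ℝ} {X : ℝ → V → V} (hX : Flow0 U α β X)
    (hM : ∀ t ∈ Ioo α β, ∀ x, ‖U t x‖ ≤ M) {t : ℝ} (ht : t ∈ Ioo α β) (z : V) :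
    ‖X β z - X t z‖ ≤ M * (β - t) := by
  have hc : ContinuousOn (fun τ => X τ z) (Icc t β) :=
    hX.cont.comp (f := fun τ : ℝ => (τ, z)) (by fun_prop)
      (fun τ hτ => ⟨⟨ht.1.le.trans hτ.1, hτ.2⟩, mem_univ _⟩)
  have h := norm_image_sub_le_of_norm_deriv_right_le_segment (f' := fun τ => U τ (X τ z)) (C := M) hc
    (fun τ hτ => (hX.ode z τ ⟨ht.1.trans_le hτ.1, hτ.2⟩).hasDerivWithinAt)
    (fun τ hτ => hM τ ⟨ht.1.trans_le hτ.1, hτ.2⟩ _)
  exact h β ⟨ht.2.le, le_rfl⟩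

/-- the contradiction at a singular point -/
theorem point {CL r s M δ : ℝ} (hr : 0 < r) {u : ℝ → V → V} {X : ℝ → V → V} (hM : 0 ≤ M)
    (hX : Flow0 (mol r u) (s - r ^ 2) s X)
    (hMb : ∀ t ∈ Ioo (s - r ^ 2) s, ∀ x, ‖mol r u t x‖ ≤ M)
    (hδ1 : δ ≤ r ^ 2 / 32) (hδ2 : δ ≤ r / 16) (hδ3 : M * δ ≤ r / 16) {x z y : V} {t : ℝ}
    (ht1 : s - δ < t) (ht2 : t < s) (hz : z ∈ ball x (r / 8)) (hy : y ∈ ball x δ)
    (hloc : ∀ t ∈ Ioo (-1 / 16 : ℝ) 0, ∀ w ∈ ball (0 : V) (1 / 4), ∀ i,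
      |frv r s (fun τ => X τ z) u t w i| ≤ CL) : ‖u t y‖ ≤ CL / r + M := by
  have hr2 : 0 < r ^ 2 := by positivity
  have htm : t ∈ Ioo (s - r ^ 2) s := ⟨by linarith, ht2⟩
  have hsp : ‖X s z - X t z‖ ≤ M * (s - t) := speed hX hMb htm z
  rw [hX.fin z] at hsp
  have hsp2 : ‖z - X t z‖ ≤ r / 16 :=
    hsp.trans ((mul_le_mul_of_nonneg_left (by linarith) hM).trans hδ3)
  have hz' : ‖z - x‖ < r / 8 := by rwa [mem_ball, dist_eq_norm] at hz
  have hy' : ‖y - x‖ < δ := by rwa [mem_ball, dist_eq_norm] at hy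
  have h1 : ‖y - X t z‖ < r / 4 := by
    calc ‖y - X t z‖ = ‖(y - x) - (z - x) + (z - X t z)‖ := by congr 1; abel
      _ ≤ ‖(y - x) - (z - x)‖ + ‖z - X t z‖ := norm_add_le _ _
      _ ≤ ‖y - x‖ + ‖z - x‖ + ‖z - X t z‖ := by gcongr; exact norm_sub_le _ _
      _ < r / 4 := by linarith
  have hw : r⁻¹ • (y - X t z) ∈ ball (0 : V) (1 / 4) := by
    rw [mem_ball, dist_zero_right, norm_smul, norm_inv, Real.norm_eq_abs, abs_of_pos hr]
    rw [inv_mul_lt_iff₀ hr]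
    linarith
  have ht' : (t - s) / r ^ 2 ∈ Ioo (-1 / 16 : ℝ) 0 := by
    constructor
    · rw [lt_div_iff₀ hr2]
      linarith
    · exact div_neg_of_neg_of_pos (by linarith) hr2
  have e1 : s + r ^ 2 * ((t - s) / r ^ 2) = t := by
    field_simp
    ring
  have e2 : X t z + r • (r⁻¹ • (y - X t z)) = y := by
    rw [smul_smul, mul_inv_cancel₀ hr.ne', one_smul]
    abel
  have hCL : 0 ≤ CL := (abs_nonneg _).trans (hloc _ ht' _ hw 0)
  rw [pi_norm_le_iff_of_nonneg (by positivity)]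
  intro i
  have h2 := hloc _ ht' _ hw i
  unfold frv at h2
  simp only at h2
  rw [e1, e2] at h2
  have hd : HasDerivAt (fun τ => X τ z i) (mol r u t (X t z) i) t :=
    (hasDerivAt_pi.1 (hX.ode z t htm)) i
  rw [hd.deriv, abs_mul, abs_of_pos hr] at h2
  have h3 : |u t y i - mol r u t (X t z) i| ≤ CL / r := by
    rw [le_div_iff₀ hr, mul_comm]
    exact h2
  have h4 : |mol r u t (X t z) i| ≤ M :=
    (norm_le_pi_norm (mol r u t (X t z)) i).trans (hMb t htm _)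
  rw [Real.norm_eq_abs]
  calc |u t y i| = |(u t y i - mol r u t (X t z) i) + mol r u t (X t z) i| := by
        rw [sub_add_cancel]
    _ ≤ |u t y i - mol r u t (X t z) i| + |mol r u t (X t z) i| := abs_add_le _ _
    _ ≤ _ := add_le_add h3 h4

theorem t_COUNT (h1 : S_LOC) (h2 : S_SLICE) (h3 : S_FRAME) (h4 : S_MOLL) (h5 : S_MBD)
    (h6 : S_FLOWX) (h7 : S_FLOWC) (h8 : S_FLOWP) (h9 : S_MARK) (h10 : S_PACK) (h11 : S_ENST) :
    S_COUNT := by
  obtain ⟨ε, CL, hε, hCL, hloc⟩ := h1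
  obtain ⟨CS, hCS, hsl⟩ := h2
  refine ⟨64 * CS / ε, by positivity, ?_⟩
  intro T u p hT hsol m hm hmT S hS hsep
  set r := rr m with hrdef
  have hr : 0 < r := rr_pos m
  have hr1 : r ≤ 1 := by
    rw [hrdef]; unfold rr
    exact pow_le_one₀ (by norm_num) (by norm_num)
  have hr2 : 0 < r ^ 2 := by positivity
  obtain ⟨M, hM0, hM⟩ := h5 T u p hsol r hr
  obtain ⟨δ, hδ0, hδ1, hδ2, hδ3⟩ : ∃ δ : ℝ, 0 < δ ∧ δ ≤ r ^ 2 / 32 ∧ δ ≤ r / 16 ∧ M * δ ≤ r / 16 := by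
    refine ⟨min (r ^ 2 / 32) (r / 16 / (M + 1)), by positivity, min_le_left _ _, ?_, ?_⟩
    · refine (min_le_right _ _).trans (div_le_self (by positivity) (by linarith))
    · calc M * min (r ^ 2 / 32) (r / 16 / (M + 1)) ≤ (M + 1) * (r / 16 / (M + 1)) := by
            apply mul_le_mul (by linarith) (min_le_right _ _) (by positivity) (by positivity)
        _ = r / 16 := by field_simp
  have hsing : ∀ x : V, ∃ t : ℝ, ∃ y : V, x ∈ S → (t ∈ Ioo (T - δ) T ∧ y ∈ ball x δ ∧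
      CL / r + M < ‖u t y‖) := by
    intro x
    by_cases hx : x ∈ S
    · obtain ⟨t, ht, y, hy, h⟩ := hS x hx δ hδ0 (CL / r + M)
      exact ⟨t, y, fun _ => ⟨ht, hy, h⟩⟩
    · exact ⟨0, 0, fun h => absurd h hx⟩
  choose tx yx htx using hsing
  obtain ⟨s, hs1, hs2, hs3⟩ : ∃ s, T - δ < s ∧ s < T ∧ ∀ x ∈ S, tx x < s := by
    have e1 : ∀ᶠ s in 𝓝[<] T, s ∈ Ioo (T - δ) T := Ioo_mem_nhdsLT (by linarith)
    have e2 : ∀ᶠ s in 𝓝[<] T, ∀ x ∈ S, tx x < s := by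
      rw [Finset.eventually_all]
      intro x hx
      filter_upwards [Ioo_mem_nhdsLT (htx x hx).1.2] with s hs
      exact hs.1
    obtain ⟨s, h1, h2⟩ := (e1.and e2).exists
    exact ⟨s, h1.1, h1.2, h2⟩
  have hrs : r ^ 2 < s := by linarith
  have hα : 0 < s - r ^ 2 := by linarith
  have hαβ : s - r ^ 2 < s := by linarith
  have hgood : Good T (mol r u) := h4 T u p hsol r hr
  obtain ⟨X, hX0⟩ := h6 T (mol r u) hgood (s - r ^ 2) s hα hαβ hs2
  have hX : Flow (mol r u) (s - r ^ 2) s X := flow_of h7 h8 hgood hα hαβ hs2 hX0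
  obtain ⟨hint, hcont, hper, heq⟩ := h9 T u p hsol m s hrs hs2 X hX
  have hMb : ∀ t ∈ Ioo (s - r ^ 2) s, ∀ x, ‖mol r u t x‖ ≤ M := fun t ht x =>
    hM t ⟨hα.trans ht.1, ht.2.trans hs2⟩ x
  have hclaim : ∀ x ∈ S, ∀ z ∈ ball x (r / 8), ε / CS ≤ ∫ t in Ioo (-1 : ℝ) 0,
      FF m (u (s + rr m ^ 2 * t)) (X (s + rr m ^ 2 * t) z) := by
    intro x hx z hz
    by_contra hlt
    rw [not_le, lt_div_iff₀ hCS] at hlt
    have hsm : ContDiffOn ℝ ∞ (fun τ => X τ z) (Ioo (s - r ^ 2) s) := hX0.smooth z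
    have hode : ∀ t ∈ Ioo (s - r ^ 2) s,
        HasDerivAt (fun τ => X τ z) (mol r u t ((fun τ => X τ z) t)) t := fun t ht => hX0.ode z t ht
    have hhyp : Hyp (frv r s (fun τ => X τ z) u) (frq r s (fun τ => X τ z) p)
        (fun t => CS * FF m (u (s + rr m ^ 2 * t)) (X (s + rr m ^ 2 * t) z)) ε := by
      refine ⟨h3 T u p hsol r s hr hrs hs2 _ hsm hode, ?_, (hint z).const_mul CS, ?_⟩
      · intro t ht
        exact hsl T u p hsol m s hm hrs hs2 (fun τ => X τ z) hsm hode t ht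
      · rw [integral_const_mul, mul_comm]
        exact hlt.le
    have hl := hloc _ _ _ hhyp
    obtain ⟨ht, hy, hbig⟩ := htx x hx
    have := point (CL := CL) hr hM0 hX0 hMb hδ1 hδ2 hδ3 (t := tx x) (by linarith [ht.1]) (hs3 x hx)
      hz hy hl
    linarith
  have hH0 : ∀ x, 0 ≤ ∫ t in Ioo (-1 : ℝ) 0,
      FF m (u (s + rr m ^ 2 * t)) (X (s + rr m ^ 2 * t) x) := fun x =>
    setIntegral_nonneg_of_ae_restrict (Eventually.of_forall fun t => FF_nonneg _ _ _)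
  have hpack := h10 _ (ε / CS) (r / 8) S hcont hper hH0 (by positivity) (by linarith)
    (fun x hx y hy hxy k => by
      have := hsep x hx y hy hxy k
      linarith) hclaim
  rw [heq] at hpack
  have hI : IntegrableOn (fun t => enstrophy (u t)) (Ioo (T - 2 * r ^ 2) T) :=
    (h11 1 T u p one_pos hT hsol).mono_set (Ioo_subset_Ioo (by linarith) le_rfl)
  have hmono : ∫ t in Ioo (s - rr m ^ 2) s, enstrophy (u t) ≤
      ∫ t in Ioo (T - 2 * r ^ 2) T, enstrophy (u t) := by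
    apply setIntegral_mono_set hI
    · exact Eventually.of_forall fun t => enst_nonneg _
    · exact (Ioo_subset_Ioo (by rw [← hrdef]; linarith) hs2.le).eventuallyLE
  have h4m : ((m : ℝ) + 1) / 4 ^ m = (m + 1) * r ^ 2 := by
    rw [hrdef, rr_sq]; ring
  rw [h4m] at hpack
  have hfin : (S.card : ℝ) * (2 * (r / 8)) ^ 3 * (ε / CS) ≤
      (m + 1) * r ^ 2 * ∫ t in Ioo (T - 2 * r ^ 2) T, enstrophy (u t) :=
    hpack.trans (mul_le_mul_of_nonneg_left hmono (by positivity))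
  set J := ∫ t in Ioo (T - 2 * r ^ 2) T, enstrophy (u t) with hJ
  have h5' : (S.card : ℝ) * r * (r ^ 2 * ε / (64 * CS)) ≤
      64 * CS / ε * (m + 1) * J * (r ^ 2 * ε / (64 * CS)) := by
    calc (S.card : ℝ) * r * (r ^ 2 * ε / (64 * CS)) = (S.card : ℝ) * (2 * (r / 8)) ^ 3 * (ε / CS) := by
          field_simp
          ring
      _ ≤ (m + 1) * r ^ 2 * J := hfin
      _ = _ := by field_simp
  exact le_of_mul_le_mul_right h5' (by positivity)

end W414.MD
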